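import Pool.Agent.PFE.StmtsE2

/-!
# Squad PFE, row XEX: a bimodule with a given basis (helper59)

`M = (Ω → Fin l → R) × (Ω' → Fin l → Fin l → R)`, `y` shifts the indices, `W × W` permutes `Ω`, `Ω'`.
-/

open scoped BigOperators

noncomputable section

namespace Pool.Agent.PFE.H59

open MulOpposite
open Pool.Agent.PFC.B1 (FS Split BiM Sep)
open Pool.Agent.PFD.D2b (wrp FPl FrR WFS)

section shift

variable {l : ℕ} {A : Type} [Zero A]

/-- shift by `k` -/
def shf (k : ℕ) (f : Fin l → A) : Fin l → A :=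
  fun i => if k ≤ (i : ℕ) then f ⟨(i : ℕ) - k, lt_of_le_of_lt (Nat.sub_le _ _) i.2⟩ else 0

theorem shf_zero (f : Fin l → A) : shf 0 f = f := by
  funext i
  simp [shf]

theorem shf_shf (a b : ℕ) (f : Fin l → A) : shf a (shf b f) = shf (a + b) f := by
  funext i
  unfold shf
  by_cases h1 : a ≤ (i : ℕ)
  · by_cases h2 : b ≤ (i : ℕ) - a
    · have h3 : a + b ≤ (i : ℕ) := by omega
      simp only [h1, h2, h3, if_true]
      congr 1
      apply Fin.ext
      simp only
      omega
    · have h3 : ¬ a + b ≤ (i : ℕ) := by omega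
      simp only [h1, h2, h3, if_true, if_false]
  · have h3 : ¬ a + b ≤ (i : ℕ) := by omega
    simp only [h1, h3, if_false]

theorem shf_big (k : ℕ) (hk : l ≤ k) (f : Fin l → A) : shf k f = 0 := by
  funext i
  have : ¬ k ≤ (i : ℕ) := by have := i.2; omega
  simp [shf, this]

end shift

section defs

variable {R Ω Ω' : Type} [CommRing R] {l : ℕ}

/-- the module -/
abbrev MM (R Ω Ω' : Type) (l : ℕ) : Type := (Ω → Fin l → R) × (Ω' → Fin l → Fin l → R)

/-- the left operator `y^k` -/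
def opl (k : ℕ) : MM R Ω Ω' l →ₗ[R] MM R Ω Ω' l where
  toFun n := (fun o => shf k (n.1 o), fun o => shf k (n.2 o))
  map_add' n m := by
    ext o i
    · simp only [shf, Prod.fst_add, Pi.add_apply]
      split_ifs <;> simp
    · simp only [shf, Prod.snd_add, Pi.add_apply]
      split_ifs <;> simp
  map_smul' r n := by
    ext o i
    · simp only [shf, Prod.smul_fst, Pi.smul_apply, RingHom.id_apply]
      split_ifs <;> simp
    · simp only [shf, Prod.smul_snd, Pi.smul_apply, RingHom.id_apply]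
      split_ifs <;> simp

/-- the right operator `y^k` -/
def opr (c : Ω → R) (k : ℕ) : MM R Ω Ω' l →ₗ[R] MM R Ω Ω' l where
  toFun n := (fun o i => c o ^ k * shf k (n.1 o) i, fun o i => shf k (n.2 o i))
  map_add' n m := by
    ext o i
    · simp only [shf, Prod.fst_add, Pi.add_apply]
      split_ifs <;> simp [mul_add]
    · simp only [shf, Prod.snd_add, Pi.add_apply]
      split_ifs <;> simp
  map_smul' r n := by
    ext o i
    · simp only [shf, Prod.smul_fst, Pi.smul_apply, RingHom.id_apply, smul_eq_mul]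
      split_ifs
      · ring
      · simp
    · simp only [shf, Prod.smul_snd, Pi.smul_apply, RingHom.id_apply, smul_eq_mul]
      split_ifs <;> simp

theorem opl_zero : (opl 0 : MM R Ω Ω' l →ₗ[R] MM R Ω Ω' l) = LinearMap.id := by
  apply LinearMap.ext
  intro n
  show ((fun o => shf 0 (n.1 o), fun o => shf 0 (n.2 o)) : MM R Ω Ω' l) = n
  simp only [shf_zero]

theorem opl_mul (a b : ℕ) (n : MM R Ω Ω' l) : opl a (opl b n) = opl (a + b) n := by
  show ((fun o => shf a (shf b (n.1 o)), fun o => shf a (shf b (n.2 o))) : MM R Ω Ω' l) =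
    (fun o => shf (a + b) (n.1 o), fun o => shf (a + b) (n.2 o))
  simp only [shf_shf]

theorem opr_zero (c : Ω → R) : (opr c 0 : MM R Ω Ω' l →ₗ[R] MM R Ω Ω' l) = LinearMap.id := by
  apply LinearMap.ext
  intro n
  show ((fun o i => c o ^ 0 * shf 0 (n.1 o) i, fun o i => shf 0 (n.2 o i)) : MM R Ω Ω' l) = n
  simp only [shf_zero, pow_zero, one_mul]

theorem shf_smul (k : ℕ) (r : R) (f : Fin l → R) (i : Fin l) :
    shf k (fun j => r * f j) i = r * shf k f i := by
  unfold shf
  split_ifs <;> simp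

theorem opr_mul (c : Ω → R) (a b : ℕ) (n : MM R Ω Ω' l) :
    opr c a (opr c b n) = opr c (a + b) n := by
  show ((fun o i => c o ^ a * shf a (fun j => c o ^ b * shf b (n.1 o) j) i,
      fun o i => shf a (shf b (n.2 o i))) : MM R Ω Ω' l) =
    (fun o i => c o ^ (a + b) * shf (a + b) (n.1 o) i, fun o i => shf (a + b) (n.2 o i))
  refine Prod.ext ?_ ?_
  · funext o i
    show c o ^ a * shf a (fun j => c o ^ b * shf b (n.1 o) j) i = _
    rw [shf_smul]
    show _ = c o ^ (a + b) * shf (a + b) (n.1 o) i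
    rw [← shf_shf]
    ring
  · simp only [shf_shf]

theorem opl_pow (k : ℕ) : ((opl 1 : Module.End R (MM R Ω Ω' l)) ^ k) = opl k := by
  induction k with
  | zero => rw [pow_zero, opl_zero]; rfl
  | succ k ih =>
    apply LinearMap.ext
    intro n
    rw [pow_succ, Module.End.mul_apply, ih, opl_mul]

theorem opr_pow (c : Ω → R) (k : ℕ) :
    ((opr c 1 : Module.End R (MM R Ω Ω' l)) ^ k) = opr c k := by
  induction k with
  | zero => rw [pow_zero, opr_zero]; rfl
  | succ k ih =>
    apply LinearMap.ext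
    intro n
    rw [pow_succ, Module.End.mul_apply, ih, opr_mul]

theorem opl_big : (opl l : MM R Ω Ω' l →ₗ[R] MM R Ω Ω' l) = 0 := by
  apply LinearMap.ext
  intro n
  show ((fun o => shf l (n.1 o), fun o => shf l (n.2 o)) : MM R Ω Ω' l) = 0
  simp only [shf_big l le_rfl]
  rfl

theorem opr_big (c : Ω → R) : (opr c l : MM R Ω Ω' l →ₗ[R] MM R Ω Ω' l) = 0 := by
  apply LinearMap.ext
  intro n
  show ((fun o i => c o ^ l * shf l (n.1 o) i, fun o i => shf l (n.2 o i)) : MM R Ω Ω' l) = 0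
  simp only [shf_big l le_rfl, Pi.zero_apply, mul_zero]
  rfl

theorem opl_opr (c : Ω → R) (a b : ℕ) (n : MM R Ω Ω' l) :
    opl a (opr c b n) = opr c b (opl a n) := by
  refine Prod.ext ?_ ?_
  · funext o i
    show shf a (fun j => c o ^ b * shf b (n.1 o) j) i = c o ^ b * shf b (shf a (n.1 o)) i
    rw [shf_smul, shf_shf, shf_shf, add_comm]
  · funext o i k
    show shf a (fun j => shf b (n.2 o j)) i k = shf b (shf a (n.2 o) i) k
    unfold shf
    by_cases h1 : a ≤ (i : ℕ) <;> by_cases h2 : b ≤ (k : ℕ) <;> simp [h1, h2]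

section action

variable {W : Type} [CommGroup W] [MulAction (W × W) Ω] [MulAction (W × W) Ω']

/-- the action of `W × W` -/
def act : W × W →* Module.End R (MM R Ω Ω' l) where
  toFun w :=
    { toFun := fun n => (fun o => n.1 (w⁻¹ • o), fun o => n.2 (w⁻¹ • o))
      map_add' := fun n m => rfl
      map_smul' := fun r n => rfl }
  map_one' := by
    apply LinearMap.ext
    intro n
    show ((fun o => n.1 ((1 : W × W)⁻¹ • o), fun o => n.2 ((1 : W × W)⁻¹ • o)) : MM R Ω Ω' l) = n
    simp only [inv_one, one_smul]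
  map_mul' u v := by
    apply LinearMap.ext
    intro n
    show ((fun o => n.1 ((u * v)⁻¹ • o), fun o => n.2 ((u * v)⁻¹ • o)) : MM R Ω Ω' l) =
      (fun o => n.1 (v⁻¹ • u⁻¹ • o), fun o => n.2 (v⁻¹ • u⁻¹ • o))
    simp only [mul_inv_rev, mul_smul]

theorem act_act (u v : W × W) (n : MM R Ω Ω' l) : act u (act v n) = act (u * v) n := by
  rw [map_mul, Module.End.mul_apply]

theorem act_opl (w : W × W) (k : ℕ) (n : MM R Ω Ω' l) : act w (opl k n) = opl k (act w n) := rfl

theorem act_opr (c : Ω → R) (hc : ∀ (w : W × W) (o : Ω), c (w • o) = c o) (w : W × W) (k : ℕ)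
    (n : MM R Ω Ω' l) : act w (opr c k n) = opr c k (act w n) := by
  refine Prod.ext ?_ ?_
  · funext o i
    show c (w⁻¹ • o) ^ k * shf k (n.1 (w⁻¹ • o)) i = c o ^ k * shf k (n.1 (w⁻¹ • o)) i
    rw [hc]
  · rfl

end action

end defs

/-! ## The basis -/

open Classical in
/-- the basis vectors of the first kind -/
def gg (R : Type) [CommRing R] {Ω : Type} (Ω' : Type) (l : ℕ) (o : Ω) : MM R Ω Ω' l :=
  (fun o' i => if o' = o ∧ (i : ℕ) = 0 then 1 else 0, 0)

open Classical in
/-- the basis vectors of the second kind -/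
def hh (R : Type) [CommRing R] (Ω : Type) {Ω' : Type} (l : ℕ) (o : Ω') : MM R Ω Ω' l :=
  (0, fun o' i k => if o' = o ∧ (i : ℕ) = 0 ∧ (k : ℕ) = 0 then 1 else 0)

section basis

variable {R Ω Ω' : Type} [CommRing R] {l : ℕ}

open Classical in
theorem opl_gg (k : ℕ) (o : Ω) : opl k (gg R Ω' l o) =
    ((fun o' i => if o' = o ∧ (i : ℕ) = k then 1 else 0, 0) : MM R Ω Ω' l) := by
  refine Prod.ext ?_ ?_
  · funext o' i
    show shf k (fun i : Fin l => if o' = o ∧ (i : ℕ) = 0 then (1 : R) else 0) i =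
      if o' = o ∧ (i : ℕ) = k then 1 else 0
    unfold shf
    by_cases h1 : k ≤ (i : ℕ)
    · rw [if_pos h1]
      have : ((i : ℕ) - k = 0) ↔ ((i : ℕ) = k) := by omega
      simp only [this]
    · rw [if_neg h1, if_neg]
      rintro ⟨-, h⟩
      omega
  · funext o' i
    show shf k (fun _ : Fin l => (0 : Fin l → R)) i = 0
    unfold shf
    split_ifs <;> rfl

theorem opr_gg (c : Ω → R) (k : ℕ) (o : Ω) : opr c k (gg R Ω' l o) =
    c o ^ k • opl k (gg R Ω' l o) := by
  classical
  rw [opl_gg]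
  refine Prod.ext ?_ ?_
  · funext o' i
    show c o' ^ k * shf k (fun i : Fin l => if o' = o ∧ (i : ℕ) = 0 then (1 : R) else 0) i =
      c o ^ k * (if o' = o ∧ (i : ℕ) = k then 1 else 0)
    have : shf k (fun i : Fin l => if o' = o ∧ (i : ℕ) = 0 then (1 : R) else 0) i =
      (if o' = o ∧ (i : ℕ) = k then 1 else 0) := by
      have h := congrArg (fun n : MM R Ω Ω' l => n.1 o' i) (opl_gg (R := R) (Ω' := Ω') (l := l) k o)
      exact h
    rw [this]
    by_cases h : o' = o
    · subst h; rfl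
    · simp [h]
  · funext o' i j
    show shf k (fun _ : Fin l => (0 : R)) j = c o ^ k * 0
    unfold shf
    split_ifs <;> simp

open Classical in
theorem opl_opr_hh (c : Ω → R) (k m : ℕ) (o : Ω') : opl k (opr c m (hh R Ω l o)) =
    ((0, fun o' i j => if o' = o ∧ (i : ℕ) = k ∧ (j : ℕ) = m then 1 else 0) : MM R Ω Ω' l) := by
  refine Prod.ext ?_ ?_
  · funext o' i
    show shf k (fun j => c o' ^ m * shf m (fun _ : Fin l => (0 : R)) j) i = 0
    unfold shf
    split_ifs <;> simp
  · funext o' i j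
    show shf k (fun i' => shf m (fun j' : Fin l =>
      if o' = o ∧ (i' : ℕ) = 0 ∧ (j' : ℕ) = 0 then (1 : R) else 0)) i j =
      if o' = o ∧ (i : ℕ) = k ∧ (j : ℕ) = m then 1 else 0
    unfold shf
    by_cases h1 : k ≤ (i : ℕ)
    · rw [if_pos h1]
      dsimp only
      by_cases h2 : m ≤ (j : ℕ)
      · rw [if_pos h2]
        have e1 : ((i : ℕ) - k = 0) ↔ ((i : ℕ) = k) := by omega
        have e2 : ((j : ℕ) - m = 0) ↔ ((j : ℕ) = m) := by omega
        simp only [e1, e2]
      · rw [if_neg h2, if_neg]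
        rintro ⟨-, -, h⟩
        omega
    · rw [if_neg h1, if_neg]
      · rfl
      · rintro ⟨-, h, -⟩
        omega

variable {W : Type} [CommGroup W] [MulAction (W × W) Ω] [MulAction (W × W) Ω']

theorem act_gg (w : W × W) (o : Ω) : act w (gg R Ω' l o) = gg R Ω' l (w • o) := by
  classical
  refine Prod.ext ?_ rfl
  funext o' i
  show (if w⁻¹ • o' = o ∧ (i : ℕ) = 0 then (1 : R) else 0) =
    if o' = w • o ∧ (i : ℕ) = 0 then 1 else 0
  simp only [inv_smul_eq_iff]

theorem act_hh (w : W × W) (o : Ω') : act w (hh R Ω l o) = hh R Ω l (w • o) := by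
  classical
  refine Prod.ext rfl ?_
  funext o' i k
  show (if w⁻¹ • o' = o ∧ (i : ℕ) = 0 ∧ (k : ℕ) = 0 then (1 : R) else 0) =
    if o' = w • o ∧ (i : ℕ) = 0 ∧ (k : ℕ) = 0 then 1 else 0
  simp only [inv_smul_eq_iff]

/-- the functionals of the first kind -/
def cc (R : Type) [CommRing R] {Ω : Type} (Ω' : Type) {l : ℕ} (hl : 1 ≤ l) (o : Ω) :
    MM R Ω Ω' l →ₗ[R] R where
  toFun n := n.1 o ⟨l - 1, by omega⟩
  map_add' _ _ := rfl
  map_smul' _ _ := rfl

/-- the functionals of the second kind -/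
def dd (R : Type) [CommRing R] (Ω : Type) {Ω' : Type} {l : ℕ} (hl : 1 ≤ l) (o : Ω') :
    MM R Ω Ω' l →ₗ[R] R where
  toFun n := n.2 o ⟨l - 1, by omega⟩ ⟨l - 1, by omega⟩
  map_add' _ _ := rfl
  map_smul' _ _ := rfl

theorem cc_act (hl : 1 ≤ l) (w : W × W) (o : Ω) (n : MM R Ω Ω' l) :
    cc R Ω' hl (w • o) (act w n) = cc R Ω' hl o n := by
  show n.1 (w⁻¹ • w • o) _ = n.1 o _
  rw [inv_smul_smul]

theorem dd_act (hl : 1 ≤ l) (w : W × W) (o : Ω') (n : MM R Ω Ω' l) :
    dd R Ω hl (w • o) (act w n) = dd R Ω hl o n := by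
  show n.2 (w⁻¹ • w • o) _ _ = n.2 o _ _
  rw [inv_smul_smul]

theorem cc_opl (hl : 1 ≤ l) (o : Ω) (i : ℕ) (hi : i < l) (n : MM R Ω Ω' l) :
    cc R Ω' hl o (opl (l - 1 - i) n) = n.1 o ⟨i, hi⟩ := by
  show shf (l - 1 - i) (n.1 o) ⟨l - 1, _⟩ = n.1 o ⟨i, hi⟩
  unfold shf
  rw [if_pos (by simp)]
  have h : l - 1 - (l - 1 - i) = i := by omega
  simp only [h]

theorem dd_opl (c : Ω → R) (hl : 1 ≤ l) (o : Ω') (i k : ℕ) (hi : i < l) (hk : k < l)
    (n : MM R Ω Ω' l) :
    dd R Ω hl o (opl (l - 1 - i) (opr c (l - 1 - k) n)) = n.2 o ⟨i, hi⟩ ⟨k, hk⟩ := by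
  show shf (l - 1 - i) (fun i' => shf (l - 1 - k) (n.2 o i')) ⟨l - 1, _⟩ ⟨l - 1, _⟩ =
    n.2 o ⟨i, hi⟩ ⟨k, hk⟩
  unfold shf
  rw [if_pos (by simp)]
  dsimp only
  rw [if_pos (by simp)]
  have h : l - 1 - (l - 1 - i) = i := by omega
  have h' : l - 1 - (l - 1 - k) = k := by omega
  simp only [h, h']

theorem cc_opr (c : Ω → R) (hl : 1 ≤ l) (o : Ω) (n : MM R Ω Ω' l) :
    cc R Ω' hl o (opr c 1 n) = c o * cc R Ω' hl o (opl 1 n) := by
  show c o ^ 1 * _ = c o * _
  rw [pow_one]
  rfl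

variable [Fintype Ω] [Fintype Ω']

/-- the element with given coordinates -/
theorem el_eq (c : Ω → R) (a : Ω → ℕ → R) (a' : Ω' → ℕ → ℕ → R) :
    ∑ o, ∑ i ∈ Finset.range l, a o i • opl i (gg R Ω' l o) +
      ∑ o, ∑ i ∈ Finset.range l, ∑ k ∈ Finset.range l,
        a' o i k • opl i (opr c k (hh R Ω l o)) =
    ((fun o i => a o i, fun o i k => a' o i k) : MM R Ω Ω' l) := by
  classical
  refine Prod.ext ?_ ?_
  · funext o i
    have h1 : (∑ o, ∑ i ∈ Finset.range l, ∑ k ∈ Finset.range l,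
        a' o i k • opl i (opr c k (hh R Ω l o)) : MM R Ω Ω' l).1 = 0 := by
      simp only [Prod.fst_sum]
      refine Finset.sum_eq_zero fun o _ => Finset.sum_eq_zero fun i _ =>
        Finset.sum_eq_zero fun k _ => ?_
      rw [opl_opr_hh, Prod.smul_fst, smul_zero]
    rw [Prod.fst_add, h1, add_zero]
    simp only [Prod.fst_sum, Finset.sum_apply, Prod.smul_fst, Pi.smul_apply, opl_gg, smul_eq_mul,
      mul_ite, mul_one, mul_zero]
    rw [Finset.sum_eq_single o, Finset.sum_eq_single (i : ℕ)]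
    · simp
    · intro j _ hj
      rw [if_neg]
      rintro ⟨-, h⟩
      exact hj h.symm
    · intro h
      exact absurd (Finset.mem_range.2 i.2) h
    · intro o' _ ho'
      refine Finset.sum_eq_zero fun j _ => ?_
      rw [if_neg]
      rintro ⟨h, -⟩
      exact ho' h.symm
    · intro h
      exact absurd (Finset.mem_univ _) h
  · funext o i k
    have h1 : (∑ o, ∑ i ∈ Finset.range l, a o i • opl i (gg R Ω' l o) : MM R Ω Ω' l).2 = 0 := by
      simp only [Prod.snd_sum]
      refine Finset.sum_eq_zero fun o _ => Finset.sum_eq_zero fun i _ => ?_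
      rw [opl_gg, Prod.smul_snd, smul_zero]
    rw [Prod.snd_add, h1, zero_add]
    simp only [Prod.snd_sum, Finset.sum_apply, Prod.smul_snd, Pi.smul_apply, opl_opr_hh,
      smul_eq_mul, mul_ite, mul_one, mul_zero]
    rw [Finset.sum_eq_single o, Finset.sum_eq_single (i : ℕ), Finset.sum_eq_single (k : ℕ)]
    · simp
    · intro j _ hj
      rw [if_neg]
      rintro ⟨-, -, h⟩
      exact hj h.symm
    · intro h
      exact absurd (Finset.mem_range.2 k.2) h
    · intro j _ hj
      refine Finset.sum_eq_zero fun j' _ => ?_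
      rw [if_neg]
      rintro ⟨-, h, -⟩
      exact hj h.symm
    · intro h
      exact absurd (Finset.mem_range.2 i.2) h
    · intro o' _ ho'
      refine Finset.sum_eq_zero fun j _ => Finset.sum_eq_zero fun j' _ => ?_
      rw [if_neg]
      rintro ⟨h, -⟩
      exact ho' h.symm
    · intro h
      exact absurd (Finset.mem_univ _) h

end basis

/-- Row XEX. -/
theorem xex (gup : GupStmt) : XexStmt := by
  intro R Γ W X Ω Ω' _ _ _ _ _ _ _ _ _ _ l G χ deg hl hdeg hfo hfo'
  have hdeg' : ∀ (w : W × W) (o : Ω), χ (deg (w • o))⁻¹ = χ (deg o)⁻¹ := by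
    intro w o
    rw [hdeg]
  obtain ⟨ρl, hly, hlw⟩ := gup R Γ W (Module.End R (MM R Ω Ω' l)) l G (opl 1)
    (act.comp (MonoidHom.inl W W)) hl (by rw [opl_pow, opl_big]) (fun w => by
      apply LinearMap.ext
      intro n
      rfl)
  obtain ⟨ρr, hry, hrw⟩ := gup R Γ W (Module.End R (MM R Ω Ω' l)) l G
    (opr (fun o => χ (deg o)⁻¹) 1)
    ((act.comp (MonoidHom.inr W W)).comp (invMonoidHom : W →* W)) hl
    (by rw [opr_pow, opr_big]) (fun w => by
      apply LinearMap.ext
      intro n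
      exact (act_opr _ hdeg' _ 1 n).symm)
  have hsp : ∀ γ : Γ, γ ∈ Submodule.span R (Set.range
      (fun p : ℕ × W => G.y ^ p.1 * G.om p.2)) := by
    intro γ
    rw [← G.ex γ]
    refine Submodule.sum_mem _ fun k _ => Submodule.sum_mem _ fun w _ =>
      Submodule.smul_mem _ _ (Submodule.subset_span ⟨(k, w), rfl⟩)
  have hcomm : ∀ (a b : Γ) (n : MM R Ω Ω' l), ρl a (ρr b n) = ρr b (ρl a n) := by
    intro a b n
    refine Submodule.span_induction (p := fun x _ => ρl x (ρr b n) = ρr b (ρl x n)) ?_ ?_ ?_ ?_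
      (hsp a)
    · rintro _ ⟨⟨k, w⟩, rfl⟩
      refine Submodule.span_induction (p := fun x _ => ρl (G.y ^ k * G.om w) (ρr x n) =
        ρr x (ρl (G.y ^ k * G.om w) n)) ?_ ?_ ?_ ?_ (hsp b)
      · rintro _ ⟨⟨m, v⟩, rfl⟩
        rw [map_mul, map_mul, map_pow, map_pow, hly, hry, hlw, hrw, opl_pow, opr_pow]
        show opl k (act (w, 1) (opr _ m (act (1, v⁻¹) n))) =
          opr _ m (act (1, v⁻¹) (opl k (act (w, 1) n)))
        rw [act_opr _ hdeg', act_opl, opl_opr, act_act, act_act, mul_comm]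
      · simp
      · intro x y _ _ hx hy
        rw [map_add, LinearMap.add_apply, LinearMap.add_apply, map_add, hx, hy]
      · intro r x _ hx
        rw [map_smul, LinearMap.smul_apply, LinearMap.smul_apply, map_smul, hx]
    · simp
    · intro x y _ _ hx hy
      rw [map_add, LinearMap.add_apply, LinearMap.add_apply, map_add, hx, hy]
    · intro r x _ hx
      rw [map_smul, LinearMap.smul_apply, LinearMap.smul_apply, map_smul, hx]
  let B : BiM R Γ (MM R Ω Ω' l) :=
    { lm := ρl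
      rm := ρr.comp ((AlgEquiv.toOpposite R Γ).symm : Γᵐᵒᵖ →ₐ[R] Γ)
      comm := fun a b x => hcomm a b.unop x }
  have hBl : ∀ k n, B.lm (G.y ^ k) n = opl k n := by
    intro k n
    show ρl (G.y ^ k) n = _
    rw [map_pow, hly, opl_pow]
  have hBr : ∀ k n, B.rm (op (G.y ^ k)) n = opr (fun o => χ (deg o)⁻¹) k n := by
    intro k n
    show ρr (G.y ^ k) n = _
    rw [map_pow, hry, opr_pow]
  have hBl1 : ∀ n, B.lm G.y n = opl 1 n := by
    intro n
    rw [← hBl, pow_one]
  have hBr1 : ∀ n, B.rm (op G.y) n = opr (fun o => χ (deg o)⁻¹) 1 n := by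
    intro n
    rw [← hBr, pow_one]
  have hwrp : ∀ (w : W × W) n, wrp G.om B w n = act w n := by
    intro w n
    show ρl (G.om w.1) (ρr (G.om w.2⁻¹) n) = act w n
    rw [hlw, hrw]
    show act (w.1, 1) (act (1, (w.2⁻¹)⁻¹) n) = act w n
    rw [act_act, Prod.mk_mul_mk, mul_one, one_mul, inv_inv]
  have hχ : ∀ x : X, χ x * χ x⁻¹ = 1 := by
    intro x
    rw [← map_mul, mul_inv_cancel, map_one]
  let Y0 : YFr Ω Ω' G χ B LinearMap.id :=
    { deg := deg
      dg := hdeg
      fo := hfo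
      fo' := hfo'
      g := gg R Ω' l
      gw := fun w o => by rw [hwrp, act_gg]
      gy := fun o => by
        rw [hBl1, hBr1, opr_gg, pow_one, smul_smul, hχ, one_smul]
      c := cc R Ω' hl
      cw := fun w o n => by rw [hwrp, cc_act]
      cy := fun o n => by
        rw [hBl1, hBr1, cc_opr, ← mul_assoc, hχ, one_mul]
      h := hh R Ω l
      hw := fun w o => by rw [hwrp, act_hh]
      d := dd R Ω hl
      dw := fun w o n => by rw [hwrp, dd_act]
      fr := fun n => by
        simp only [hBl, hBr]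
        rw [LinearMap.id_apply]
        have h := el_eq (R := R) (Ω := Ω) (Ω' := Ω') (l := l) (fun o => χ (deg o)⁻¹)
          (fun o i => if h : i < l then n.1 o ⟨i, h⟩ else 0)
          (fun o i k => if h : i < l ∧ k < l then n.2 o ⟨i, h.1⟩ ⟨k, h.2⟩ else 0)
        refine Eq.trans ?_ (h.trans ?_)
        · congr 1
          · refine Finset.sum_congr rfl fun o _ => Finset.sum_congr rfl fun i hi => ?_
            rw [Finset.mem_range] at hi
            rw [cc_opl hl o i hi, dif_pos hi]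
          · refine Finset.sum_congr rfl fun o _ => Finset.sum_congr rfl fun i hi =>
              Finset.sum_congr rfl fun k hk => ?_
            rw [Finset.mem_range] at hi hk
            rw [dd_opl _ hl o i k hi hk, dif_pos ⟨hi, hk⟩]
        · refine Prod.ext ?_ ?_
          · funext o i
            exact dif_pos i.2
          · funext o i k
            exact dif_pos ⟨i.2, k.2⟩ }
  have hel : ∀ (a : Ω → ℕ → R) (a' : Ω' → ℕ → ℕ → R), Y0.el a a' =
      ((fun o i => a o i, fun o i k => a' o i k) : MM R Ω Ω' l) := by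
    intro a a'
    rw [← el_eq (fun o => χ (deg o)⁻¹)]
    show ∑ o, ∑ i ∈ Finset.range l, a o i • B.lm (G.y ^ i) (gg R Ω' l o) +
      ∑ o, ∑ i ∈ Finset.range l, ∑ k ∈ Finset.range l,
        a' o i k • B.lm (G.y ^ i) (B.rm (op (G.y ^ k)) (hh R Ω l o)) = _
    simp only [hBl, hBr]
  refine ⟨MM R Ω Ω' l, inferInstance, inferInstance, inferInstance, inferInstance, B,
    { Y0 with
      un1 := fun a a' o i hi => ?_
      un2 := fun a a' o i k hi hk => ?_ }, rfl⟩
  · show cc R Ω' hl o (B.lm (G.y ^ (l - 1 - i)) (Y0.el a a')) = a o i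
    rw [hel, hBl, cc_opl hl o i hi]
  · show dd R Ω hl o (B.lm (G.y ^ (l - 1 - i)) (B.rm (op (G.y ^ (l - 1 - k))) (Y0.el a a'))) =
      a' o i k
    rw [hel, hBl, hBr, dd_opl _ hl o i k hi hk]

end Pool.Agent.PFE.H59
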